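import Pool.Agent.K1H54.GC.Stm

/-! # Project GC (MP_0575cc_nt): the integral over one unit interval -/

set_option autoImplicit false

open Finset MeasureTheory
open Pool.Agent.K1H54.GC

namespace Pool.Agent.K1H1.GC

theorem MM_eq {q : ℕ} (χ : DirichletCharacter ℂ q) (H : ℝ) (hH : 1 ≤ H) (k j : ℕ) (y : ℝ)
    (h1 : (k : ℝ) < y) (h2 : y < k + 1) (h3 : (k : ℝ) + j < y + H) (h4 : y + H < k + j + 1) :
    MM χ (y + H / 2) H = DD χ k j := by
  unfold MM DD
  apply Finset.sum_congr _ (fun _ _ => rfl)
  ext n
  simp only [Finset.mem_filter, Finset.mem_range, Finset.mem_Ioc]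
  constructor
  · rintro ⟨-, h⟩
    rw [abs_lt] at h
    constructor
    · have : (k : ℝ) < n := by linarith
      exact_mod_cast this
    · have : (n : ℝ) < ((k + j + 1 : ℕ) : ℝ) := by
        push_cast
        linarith
      have := Nat.cast_lt.mp this
      omega
  · rintro ⟨ha, hb⟩
    have ha' : (k : ℝ) + 1 ≤ n := by exact_mod_cast ha
    have hb' : (n : ℝ) ≤ k + j := by exact_mod_cast hb
    constructor
    · have hc : y + H / 2 + H ≤ (⌈y + H / 2 + H⌉₊ : ℝ) := Nat.le_ceil _
      have : (n : ℝ) < ((⌈y + H / 2 + H⌉₊ + 1 : ℕ) : ℝ) := by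
        push_cast
        linarith
      exact_mod_cast this
    · rw [abs_lt]
      constructor
      · linarith
      · linarith

theorem piece (f : ℝ → ℝ) (a b c : ℝ) (hab : a ≤ b) (h : ∀ x, a < x → x < b → f x = c) :
    IntervalIntegrable f volume a b ∧ ∫ x in a..b, f x = (b - a) * c := by
  have hae : ∀ᵐ x ∂(volume : Measure ℝ), x ∈ Set.uIoc a b → c = f x := by
    filter_upwards [compl_mem_ae_iff.mpr (measure_singleton b)] with x hx hmem
    rw [Set.uIoc_of_le hab] at hmem
    exact (h x hmem.1 (lt_of_le_of_ne hmem.2 hx)).symm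
  constructor
  · have hc : IntervalIntegrable (fun _ : ℝ => c) volume a b := intervalIntegrable_const
    exact hc.congr_ae ((ae_restrict_iff' measurableSet_uIoc).mpr hae)
  · rw [← intervalIntegral.integral_congr_ae hae, intervalIntegral.integral_const, smul_eq_mul]

/-- Piece INT. -/
theorem t_INT : S_INT := by
  intro q χ H k hH
  set j := ⌊H⌋₊ with hj
  set th := Int.fract H with hth
  have hH0 : 0 ≤ H := by linarith
  have hHj : H = j + th := by
    rw [hj, hth, natCast_floor_eq_intCast_floor hH0]
    exact (Int.floor_add_fract H).symm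
  have ht0 : 0 ≤ th := Int.fract_nonneg H
  have ht1 : th < 1 := Int.fract_lt_one H
  obtain ⟨i1, e1⟩ := piece (fun x => ‖MM χ x H‖ ^ 2) (k + H / 2) (k + 1 - th + H / 2)
    (‖DD χ k j‖ ^ 2) (by linarith) (by
      intro x hx1 hx2
      have := MM_eq χ H hH k j (x - H / 2) (by linarith) (by linarith) (by linarith) (by linarith)
      rw [sub_add_cancel] at this
      simp only [this])
  obtain ⟨i2, e2⟩ := piece (fun x => ‖MM χ x H‖ ^ 2) (k + 1 - th + H / 2) (k + 1 + H / 2)
    (‖DD χ k (j + 1)‖ ^ 2) (by linarith) (by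
      intro x hx1 hx2
      have := MM_eq χ H hH k (j + 1) (x - H / 2) (by linarith) (by linarith)
        (by push_cast; linarith) (by push_cast; linarith)
      rw [sub_add_cancel] at this
      simp only [this])
  refine ⟨i1.trans i2, ?_⟩
  rw [← intervalIntegral.integral_add_adjacent_intervals i1 i2, e1, e2]
  ring

end Pool.Agent.K1H1.GC
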